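import Pool.Agent.H297.AL.Main

/-!
MP_9e3efc_al, Q1, negated form: for `V = k²` the pair `([Alt(V)], [B(Alt(V))])` is not the pair
`(a(V), b(V))`.

A class in `R`, for `dim V = 2`, is given by its character, a function on the pairs `d = (i, j)`
of natural numbers (the weights of the diagonal matrices in `GL(V)`).

* `FN k` is the free nonassociative algebra on two generators, `altIdeal k` its ideal generated by
  all `(a a) b - a (a b)` and `(b a) a - b (a a)`, and `Alt k = FN k / altIdeal k`, which is
  `Alt(V)` for `V = k²`. `pieceA k d` is the span of the monomials of multidegree `d`, and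
  `chA k d` is its dimension: `chA k` is the character of `Alt(V)`.
* `relB k` is the subspace of `Alt ⊗ Alt` spanned by the `a ⊗ a` and the
  `ab ⊗ c + bc ⊗ a + ca ⊗ b`, so that `B(Alt(V)) = (Alt ⊗ Alt) / relB k`; `pieceB k d` is the span
  of the classes of the `v ⊗ w` with `v`, `w` monomials of total multidegree `d`, and `chB k d` is
  its dimension (Pool/Agent/H297/AL/Alt.lean).
* `Phi a b d μ` is the coefficient of `x^d e^μ` in `Φ = λ(a [L(α₁+α₂)] + b [L(0)])`, i.e. in
  `∏_{e ≠ 0} (∏_r (1 - x^e e^r)^{a e}) (1 - x^e)^{2 (a e) + b e}`, with `r` running through the six
  roots; only the factors with `e ≤ d` matter. `mult f l` is the multiplicity of `L(l)` in the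
  character `f`, by Weyl's character formula. `IsSol a b` says that `[Φ : [L(0)]] = [k]` and
  `[Φ : [L(α₁+α₂)]] = -[V]` (Pool/Agent/H297/AL/Char.lean).

Since `(a(V), b(V))` satisfies the two identities, the theorem shows that
`[Alt(V)] = a(V)` and `[B(Alt(V))] = b(V)` do not both hold for `V = k²`.

Proof. Let `(a, b)` satisfy the identities and let `a_n`, `b_n` be the sums of the `a d`, `b d` over
the `d` of total degree `n`. Specialising to the total degree, the logarithmic derivative of `Φ`
gives a recursion, which computes `a_n`, `b_n` and the degree `n` part of `Φ` from the values in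
smaller degrees. The recursion yields `a_n = 2 ^ n` for `n ≤ 16`, but `a_17 = 2 ^ 17 + 2`. On the
other hand, by Artin's theorem (every two elements of an alternative algebra generate an
associative subalgebra; proved in Pool/Agent/H297/AL/Artin.lean) the component of degree `17` of
`Alt(V)` is spanned by the `2 ^ 17` associative words in the two generators.
-/

set_option autoImplicit false

namespace Pool.Agent.Results.MP_9e3efc_al.CharacterFormulaFails

open Pool.Agent.H297.AL

/-- **For `V = k²`, the characters of `Alt(V)` and `B(Alt(V))` do not satisfy the two identities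
which define `a(V)` and `b(V)`.** -/
theorem result (k : Type) [Field k] : ¬ IsSol (chA k) (chB k) := not_isSol k

end Pool.Agent.Results.MP_9e3efc_al.CharacterFormulaFails
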